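import Pool.Agent.Run7.h188.FW.Stm

/-!
Project FW (helper188), piece C1.
-/

set_option autoImplicit false

namespace Pool.Agent.Run7.h896.FW

open Finset Polynomial Pool.Agent.Run7.h188.FW

/-- C1. -/
theorem t_C1 : S_C1 := by
  intro L _ κ d e W hW k l
  set A : Matrix (Fin (d + 2)) (Fin (d + 2)) L[X] := (N κ d e).updateRow 0 (Pi.single k 1) with hA
  have hAW : A.mulVec W = Pi.single 0 (W k) := by
    funext i
    refine Fin.cases ?_ (fun i => ?_) i
    · rw [hA, Matrix.mulVec, Matrix.updateRow_self, Pi.single_eq_same]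
      simp [dotProduct, Pi.single_apply]
    · rw [hA, Matrix.mulVec, Matrix.updateRow_ne (Fin.succ_ne_zero i),
        Pi.single_eq_of_ne (Fin.succ_ne_zero i)]
      exact hW i
  have h1 : (A.adjugate * A).mulVec W = A.adjugate.mulVec (Pi.single 0 (W k)) := by
    rw [← Matrix.mulVec_mulVec, hAW]
  rw [Matrix.adjugate_mul, Matrix.smul_mulVec, Matrix.one_mulVec] at h1
  have h2 := congrFun h1 l
  rw [Matrix.mulVec_single, Pi.smul_apply] at h2
  have h3 : A.adjugate l 0 = Cf κ d e l := by
    rw [Matrix.adjugate_apply, hA, Matrix.updateRow_idem]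
    rfl
  have h4 : A.det = Cf κ d e k := rfl
  rw [h4] at h2
  simp only [Matrix.col_apply, h3, Pi.smul_apply, smul_eq_mul, MulOpposite.smul_eq_mul_unop,
    MulOpposite.unop_op] at h2
  linear_combination h2

end Pool.Agent.Run7.h896.FW
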