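import Pool.Agent.Run7.h188.FW.Stm

/-!
Project FW (helper188), piece C2.
-/

set_option autoImplicit false

namespace Pool.Agent.Run7.h896.FW

open Finset Polynomial Pool.Agent.Run7.h188.FW

theorem exists_det_ne {L : Type} [Field L] (n : ℕ) (r : Fin n → (Fin (n + 1) → L))
    (h : LinearIndependent L r) :
    ∃ k : Fin (n + 1), (Matrix.of (Fin.cons (Pi.single k 1) r :
      Fin (n + 1) → (Fin (n + 1) → L))).det ≠ 0 := by
  classical
  have hex : ∃ k : Fin (n + 1), (Pi.single k 1 : Fin (n + 1) → L) ∉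
      Submodule.span L (Set.range r) := by
    by_contra hcon
    push Not at hcon
    have htop : Submodule.span L (Set.range r) = ⊤ := by
      rw [eq_top_iff, ← (Pi.basisFun L (Fin (n + 1))).span_eq, Submodule.span_le]
      rintro _ ⟨k, rfl⟩
      rw [Pi.basisFun_apply]
      exact hcon k
    have h1 : (Set.range r).finrank L ≤ Fintype.card (Fin n) := finrank_range_le_card r
    rw [Set.finrank, htop, finrank_top, Module.finrank_fin_fun, Fintype.card_fin] at h1
    omega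
  obtain ⟨k, hk⟩ := hex
  refine ⟨k, ?_⟩
  have hli : LinearIndependent L (Fin.cons (Pi.single k 1) r :
      Fin (n + 1) → (Fin (n + 1) → L)) := linearIndependent_finCons.2 ⟨h, hk⟩
  have h2 : IsUnit (Matrix.of (Fin.cons (Pi.single k 1) r :
      Fin (n + 1) → (Fin (n + 1) → L))) := by
    rw [← Matrix.linearIndependent_rows_iff_isUnit]
    exact hli
  exact ((Matrix.isUnit_iff_isUnit_det _).1 h2).ne_zero

/-- The factor of `row κ i x - row κ j x`. -/
noncomputable def gR {L : Type} [Field L] (κ : ℕ → L) (i j x : ℕ) : L[X] :=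
  C ((κ i * κ j)⁻¹ * (κ j ^ x - κ i ^ x)) * ∑ t ∈ range x, (C (κ i * κ j)⁻¹ * X) ^ t

theorem row_sub {L : Type} [Field L] (κ : ℕ → L) (hκ : ∀ i, κ i ≠ 0) (i j x : ℕ) :
    row κ i x - row κ j x = (X - C (κ i * κ j)) * gR κ i j x := by
  have hi := hκ i
  have hj := hκ j
  have hg : (C (κ i * κ j)⁻¹ * X - 1) * ∑ t ∈ range x, (C (κ i * κ j)⁻¹ * X : L[X]) ^ t =
      (C (κ i * κ j)⁻¹ * X) ^ x - 1 := by
    rw [mul_comm, geom_sum_mul]
  have h1 : (X - C (κ i * κ j) : L[X]) * C (κ i * κ j)⁻¹ = C (κ i * κ j)⁻¹ * X - 1 := by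
    have : (C (κ i * κ j) : L[X]) * C (κ i * κ j)⁻¹ = 1 := by
      rw [← C_mul, mul_inv_cancel₀ (mul_ne_zero hi hj), C_1]
    rw [sub_mul, this, mul_comm X]
  have h2 : (C ((κ i)⁻¹ ^ x) : L[X]) - C ((κ j)⁻¹ ^ x) =
      C (κ j ^ x - κ i ^ x) * C ((κ i * κ j)⁻¹ ^ x) := by
    rw [← C_sub, ← C_mul]
    congr 1
    rw [mul_inv, mul_pow, inv_pow, inv_pow]
    field_simp
  calc row κ i x - row κ j x = C (κ i ^ x) - C (κ j ^ x) +
        (C ((κ i)⁻¹ ^ x) - C ((κ j)⁻¹ ^ x)) * X ^ x := by unfold row; ring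
    _ = C (κ j ^ x - κ i ^ x) * ((C (κ i * κ j)⁻¹ * X) ^ x - 1) := by
        rw [h2, mul_pow, ← C_pow, C_sub]
        ring
    _ = (X - C (κ i * κ j)) * gR κ i j x := by
        have h3 : (C ((κ i * κ j)⁻¹ * (κ j ^ x - κ i ^ x)) : L[X]) =
            C (κ i * κ j)⁻¹ * C (κ j ^ x - κ i ^ x) := C_mul
        rw [← hg, ← h1]
        unfold gR
        rw [h3]
        ring

theorem gR_eval {L : Type} [Field L] (κ : ℕ → L) (hκ : ∀ i, κ i ≠ 0) (i j x : ℕ) :
    (gR κ i j x).eval (κ i * κ j) = (κ i * κ j)⁻¹ * ((x : L) * (κ j ^ x - κ i ^ x)) := by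
  have hz : κ i * κ j ≠ 0 := mul_ne_zero (hκ i) (hκ j)
  unfold gR
  rw [eval_mul, eval_C, eval_finsetSum]
  have : ∀ t ∈ range x, eval (κ i * κ j) ((C (κ i * κ j)⁻¹ * X : L[X]) ^ t) = 1 := by
    intro t _
    rw [eval_pow, eval_mul, eval_C, eval_X, inv_mul_cancel₀ hz, one_pow]
  rw [Finset.sum_congr rfl this]
  simp
  ring

theorem row_eval {L : Type} [Field L] (κ : ℕ → L) (z : L) (i x : ℕ) :
    (row κ i x).eval z = T κ z i x := by
  unfold row T
  rw [eval_add, eval_C, eval_mul, eval_C, eval_pow, eval_X, ← mul_pow, div_eq_mul_inv,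
    mul_comm z]

/-- The cofactor with a divided row. -/
noncomputable def FF {L : Type} [Field L] (κ : ℕ → L) (d : ℕ) (e : ℕ → ℕ) (i j : Fin (d + 1))
    (k : Fin (d + 2)) : L[X] :=
  (((N κ d e).updateRow 0 (Pi.single k 1)).updateRow i.succ (fun m => gR κ i j (e m))).det

theorem cf_eq {L : Type} [Field L] (κ : ℕ → L) (hκ : ∀ i, κ i ≠ 0) (d : ℕ) (e : ℕ → ℕ)
    (i j : Fin (d + 1)) (hij : i ≠ j) (k : Fin (d + 2)) :
    Cf κ d e k = (X - C (κ i * κ j)) * FF κ d e i j k := by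
  unfold Cf FF
  rw [← Matrix.det_updateRow_smul]
  have hne : i.succ ≠ j.succ := fun h => hij (Fin.succ_injective _ h)
  rw [← Matrix.det_updateRow_add_smul_self ((N κ d e).updateRow 0 (Pi.single k 1)) hne (-1)]
  congr 2
  funext m
  rw [Matrix.updateRow_ne (Fin.succ_ne_zero i), Matrix.updateRow_ne (Fin.succ_ne_zero j)]
  have h := row_sub κ hκ i j (e m)
  simp only [N, Matrix.of_apply, Fin.cons_succ, Pi.add_apply, Pi.smul_apply, smul_eq_mul]
  rw [← h]
  ring

theorem eval_cf {L : Type} [Field L] (κ : ℕ → L) (d : ℕ) (e : ℕ → ℕ) (z : L) (k : Fin (d + 2)) :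
    (Cf κ d e k).eval z = (Matrix.of (Fin.cons (Pi.single k 1)
      (fun (i : Fin (d + 1)) (m : Fin (d + 2)) => T κ z i (e m)) :
        Fin (d + 2) → (Fin (d + 2) → L))).det := by
  unfold Cf
  have h := RingHom.map_det (evalRingHom z) ((N κ d e).updateRow 0 (Pi.single k 1))
  rw [coe_evalRingHom] at h
  rw [h]
  congr 1
  funext a b
  rw [RingHom.mapMatrix_apply, Matrix.map_apply]
  refine Fin.cases ?_ (fun a => ?_) a
  · rw [Matrix.updateRow_self, Matrix.of_apply, Fin.cons_zero, Pi.single_apply, Pi.single_apply]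
    split_ifs <;> simp
  · rw [Matrix.updateRow_ne (Fin.succ_ne_zero a), Matrix.of_apply, Fin.cons_succ]
    simp only [N, Matrix.of_apply, Fin.cons_succ, coe_evalRingHom]
    exact row_eval κ z a (e b)

theorem eval_ff {L : Type} [Field L] (κ : ℕ → L) (hκ : ∀ i, κ i ≠ 0) (d : ℕ) (e : ℕ → ℕ)
    (i j : Fin (d + 1)) (k : Fin (d + 2)) :
    (FF κ d e i j k).eval (κ i * κ j) = (Matrix.of (Fin.cons (Pi.single k 1)
      (fun (l : Fin (d + 1)) (m : Fin (d + 2)) => if l = i then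
        (κ i * κ j)⁻¹ * ((e m : L) * (κ j ^ (e m) - κ i ^ (e m))) else T κ (κ i * κ j) l (e m)) :
        Fin (d + 2) → (Fin (d + 2) → L))).det := by
  unfold FF
  have h := RingHom.map_det (evalRingHom (κ i * κ j))
    (((N κ d e).updateRow 0 (Pi.single k 1)).updateRow i.succ (fun m => gR κ i j (e m)))
  rw [coe_evalRingHom] at h
  rw [h]
  congr 1
  funext a b
  rw [RingHom.mapMatrix_apply, Matrix.map_apply]
  refine Fin.cases ?_ (fun a => ?_) a
  · rw [Matrix.updateRow_ne (Fin.succ_ne_zero i).symm, Matrix.updateRow_self, Matrix.of_apply,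
      Fin.cons_zero, Pi.single_apply, Pi.single_apply]
    split_ifs <;> simp
  · rw [Matrix.of_apply, Fin.cons_succ]
    by_cases hai : a = i
    · rw [hai, Matrix.updateRow_self, if_pos rfl, coe_evalRingHom]
      exact gR_eval κ hκ i j (e b)
    · have hne : a.succ ≠ i.succ := fun h => hai (Fin.succ_injective _ h)
      rw [Matrix.updateRow_ne hne, Matrix.updateRow_ne (Fin.succ_ne_zero a), if_neg hai]
      simp only [N, Matrix.of_apply, Fin.cons_succ, coe_evalRingHom]
      exact row_eval κ _ a (e b)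

/-- C2. -/
theorem t_C2 : S_C2 := by
  classical
  intro L _ κ d e hκ hinj hI1 hI2
  obtain ⟨s, hs⟩ : ∃ s : Finset (Σ _ : ℕ, ℕ), s = (range (d + 1)).sigma fun j => range j := ⟨_, rfl⟩
  obtain ⟨P, hP⟩ : ∃ P : L[X], P = ∏ p ∈ s, (X - C (κ p.2 * κ p.1)) := ⟨_, rfl⟩
  have hmem : ∀ p : (Σ _ : ℕ, ℕ), p ∈ s ↔ p.1 < d + 1 ∧ p.2 < p.1 := by
    intro p
    rw [hs, Finset.mem_sigma, mem_range, mem_range]
  have hcard : s.card = d * (d + 1) / 2 := by
    rw [hs, Finset.card_sigma]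
    simp only [card_range]
    rw [Finset.sum_range_id, Nat.add_sub_cancel, mul_comm]
  have hdvd : ∀ k, P ∣ Cf κ d e k := by
    intro k
    rw [hP]
    refine Finset.prod_dvd_of_coprime ?_ ?_
    · intro p hp q hq hpq
      refine isCoprime_X_sub_C_of_isUnit_sub ?_
      rw [isUnit_iff_ne_zero, sub_ne_zero]
      intro h
      have h1 := (hmem p).1 (Finset.mem_coe.1 hp)
      have h2 := (hmem q).1 (Finset.mem_coe.1 hq)
      obtain ⟨h3, h4⟩ := hinj _ _ _ _ h1.2 h2.2 h
      apply hpq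
      obtain ⟨a, b⟩ := p
      obtain ⟨a', b'⟩ := q
      simp only at h3 h4
      rw [h3, h4]
    · intro p hp
      have h1 := (hmem p).1 hp
      have h2 := cf_eq κ hκ d e ⟨p.2, by omega⟩ ⟨p.1, h1.1⟩ (by
        intro h
        have := congrArg Fin.val h
        simp only at this
        omega) k
      rw [h2]
      exact Dvd.intro _ rfl
  choose D hD using hdvd
  refine ⟨P, D, ?_, ?_, hD, ?_⟩
  · rw [hP]
    exact monic_prod_of_monic _ _ fun p _ => monic_X_sub_C _
  · rw [hP, natDegree_prod_of_monic _ _ fun p _ => monic_X_sub_C _]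
    simp only [natDegree_X_sub_C]
    rw [Finset.sum_const, smul_eq_mul, mul_one, hcard]
  intro z
  by_cases hz : ∀ i j, i < j → j ≤ d → z ≠ κ i * κ j
  · have hli : LinearIndependent L
        (fun (i : Fin (d + 1)) (m : Fin (d + 2)) => T κ z i (e m)) := by
      rw [Fintype.linearIndependent_iff]
      intro g hg
      have h1 := hI1 z hz (fun n => if h : n < d + 1 then g ⟨n, h⟩ else 0) (by
        intro k hk
        rw [Finset.sum_range]
        have h3 := congrFun hg ⟨k, by omega⟩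
        rw [Finset.sum_apply] at h3
        refine Eq.trans (Finset.sum_congr rfl fun i _ => ?_) h3
        rw [dif_pos i.2]
        rfl)
      intro i
      have h4 : (if h : (i : ℕ) < d + 1 then g ⟨i, h⟩ else 0) = 0 := h1 i (by omega)
      rw [dif_pos i.2] at h4
      exact h4
    obtain ⟨k, hk⟩ := exists_det_ne (d + 1) _ hli
    refine ⟨k, fun h0 => hk ?_⟩
    rw [← eval_cf, hD, eval_mul, h0, mul_zero]
  · push Not at hz
    obtain ⟨i, j, hij, hj, rfl⟩ := hz
    have hz0 : κ i * κ j ≠ 0 := mul_ne_zero (hκ i) (hκ j)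
    have hi1 : i < d + 1 := by omega
    have hj1 : j < d + 1 := by omega
    have hli : LinearIndependent L
        (fun (l : Fin (d + 1)) (m : Fin (d + 2)) => if l = (⟨i, hi1⟩ : Fin (d + 1)) then
          (κ i * κ j)⁻¹ * ((e m : L) * (κ j ^ (e m) - κ i ^ (e m))) else
            T κ (κ i * κ j) l (e m)) := by
      rw [Fintype.linearIndependent_iff]
      intro g hg
      have h1 := hI2 i j hij hj (fun n => if n = i then 0 else
        if h : n < d + 1 then g ⟨n, h⟩ else 0) (g ⟨i, hi1⟩ * (κ i * κ j)⁻¹) (if_pos rfl) (by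
        intro k hk
        rw [Finset.sum_range]
        have h3 := congrFun hg ⟨k, by omega⟩
        rw [Finset.sum_apply, ← Finset.sum_erase_add _ _ (Finset.mem_univ
          (⟨i, hi1⟩ : Fin (d + 1)))] at h3
        rw [← Finset.sum_erase_add _ _ (Finset.mem_univ (⟨i, hi1⟩ : Fin (d + 1)))]
        have h5 : ∀ l ∈ (Finset.univ : Finset (Fin (d + 1))).erase ⟨i, hi1⟩,
            (if (l : ℕ) = i then (0 : L) else if h : (l : ℕ) < d + 1 then g ⟨l, h⟩ else 0) *
              T κ (κ i * κ j) l (e k) =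
            (g l • fun (m : Fin (d + 2)) => if l = (⟨i, hi1⟩ : Fin (d + 1)) then
              (κ i * κ j)⁻¹ * ((e m : L) * (κ j ^ (e m) - κ i ^ (e m))) else
                T κ (κ i * κ j) l (e m)) ⟨k, by omega⟩ := by
          intro l hl
          have hli := Finset.ne_of_mem_erase hl
          have hli' : (l : ℕ) ≠ i := fun h => hli (Fin.ext h)
          rw [if_neg hli', dif_pos l.2, Pi.smul_apply, if_neg hli]
          rfl
        rw [Finset.sum_congr rfl h5, if_pos rfl, zero_mul, add_zero]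
        rw [Pi.smul_apply, if_pos rfl, smul_eq_mul] at h3
        refine Eq.trans ?_ h3
        congr 1
        exact mul_assoc _ _ _)
      obtain ⟨h6, h7⟩ := h1
      intro l
      by_cases hl : l = (⟨i, hi1⟩ : Fin (d + 1))
      · rw [hl]
        exact (mul_eq_zero.1 h6).resolve_right (inv_ne_zero hz0)
      · have hl' : (l : ℕ) ≠ i := fun h => hl (Fin.ext h)
        have h8 : (if (l : ℕ) = i then (0 : L) else
          if h : (l : ℕ) < d + 1 then g ⟨l, h⟩ else 0) = 0 := h7 l (by omega)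
        rw [if_neg hl', dif_pos l.2] at h8
        exact h8
    obtain ⟨k, hk⟩ := exists_det_ne (d + 1) _ hli
    refine ⟨k, fun h0 => hk ?_⟩
    have hne : (⟨i, hi1⟩ : Fin (d + 1)) ≠ ⟨j, hj1⟩ := by
      intro h
      have := congrArg Fin.val h
      simp only at this
      omega
    have h9 := eval_ff κ hκ d e ⟨i, hi1⟩ ⟨j, hj1⟩ k
    simp only at h9
    rw [← h9]
    have h10 : Cf κ d e k = (X - C (κ i * κ j)) * FF κ d e ⟨i, hi1⟩ ⟨j, hj1⟩ k :=
      cf_eq κ hκ d e ⟨i, hi1⟩ ⟨j, hj1⟩ hne k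
    have hmem' : (⟨j, i⟩ : Σ _ : ℕ, ℕ) ∈ s := (hmem _).2 ⟨hj1, hij⟩
    have h11 : P = (X - C (κ i * κ j)) * ∏ p ∈ s.erase ⟨j, i⟩, (X - C (κ p.2 * κ p.1)) := by
      rw [hP, Finset.mul_prod_erase s (fun p => (X - C (κ p.2 * κ p.1) : L[X])) hmem']
    have h12 : FF κ d e ⟨i, hi1⟩ ⟨j, hj1⟩ k =
        (∏ p ∈ s.erase ⟨j, i⟩, (X - C (κ p.2 * κ p.1))) * D k := by
      refine mul_left_cancel₀ (X_sub_C_ne_zero (κ i * κ j)) ?_
      rw [← h10, hD, h11, mul_assoc]
    rw [h12, eval_mul, h0, mul_zero]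

end Pool.Agent.Run7.h896.FW
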