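import Pool.Agent.Run7.h188.FW.Stm

/-!
Project FW (helper188), piece C3.
-/

set_option autoImplicit false

namespace Pool.Agent.Run7.h896.FW

open Finset Polynomial Pool.Agent.Run7.h188.FW

theorem coeff_prod_le {R ι : Type} [CommRing R] (s : Finset ι) (f : ι → R[X]) (n : ι → ℕ)
    (h : ∀ i ∈ s, (f i).natDegree ≤ n i) :
    (∏ i ∈ s, f i).coeff (∑ i ∈ s, n i) = ∏ i ∈ s, (f i).coeff (n i) ∧
      (∏ i ∈ s, f i).natDegree ≤ ∑ i ∈ s, n i := by
  classical
  induction s using Finset.induction_on with
  | empty => simp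
  | insert a s ha ih =>
    obtain ⟨h1, h2⟩ := ih fun i hi => h i (Finset.mem_insert_of_mem hi)
    rw [Finset.prod_insert ha, Finset.sum_insert ha, Finset.prod_insert ha]
    have h3 := h a (Finset.mem_insert_self a s)
    refine ⟨?_, ?_⟩
    · rw [Polynomial.coeff_mul_add_eq_of_natDegree_le h3 h2, h1]
    · exact Polynomial.natDegree_mul_le_of_le h3 h2

theorem cf_last {L : Type} [Field L] (κ : ℕ → L) (d : ℕ) (e : ℕ → ℕ) :
    Cf κ d e (Fin.last (d + 1)) = (-1) ^ (d + 1) *
      (Matrix.of fun (i k : Fin (d + 1)) => row κ i (e k)).det := by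
  unfold Cf
  rw [Matrix.det_succ_row_zero, Finset.sum_eq_single (Fin.last (d + 1))]
  · rw [Matrix.updateRow_self, Pi.single_eq_same, mul_one, Fin.val_last]
    congr 2
    funext i k
    rw [Matrix.submatrix_apply, Matrix.updateRow_ne (Fin.succ_ne_zero i), Fin.succAbove_last]
    simp [N]
  · intro b _ hb
    rw [Matrix.updateRow_self, Pi.single_eq_of_ne hb]
    ring
  · intro h
    exact absurd (Finset.mem_univ _) h

theorem row_deg {L : Type} [Field L] (κ : ℕ → L) (i x : ℕ) : (row κ i x).natDegree ≤ x := by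
  unfold row
  refine Polynomial.natDegree_add_le_of_degree_le ?_ (Polynomial.natDegree_C_mul_X_pow_le _ _)
  rw [Polynomial.natDegree_C]
  exact Nat.zero_le _

/-- C3. -/
theorem t_C3 : S_C3 := by
  intro L _ κ d e h2 he he0 hκ hLC
  rw [cf_last]
  have hdet : (Matrix.of fun (i k : Fin (d + 1)) => row κ i (e k)).det.coeff
      (∑ k ∈ range (d + 1), e k) =
      (Matrix.of fun (i k : Fin (d + 1)) => (row κ i (e k)).coeff (e k)).det := by
    rw [Matrix.det_apply, Matrix.det_apply, Polynomial.finsetSum_coeff]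
    refine Finset.sum_congr rfl fun σ _ => ?_
    rw [Polynomial.coeff_smul, Finset.sum_range]
    congr 1
    exact (coeff_prod_le Finset.univ (fun i : Fin (d + 1) => row κ (σ i) (e i)) (fun i => e i)
      fun i _ => row_deg κ _ _).1
  have hM : (Matrix.of fun (i k : Fin (d + 1)) => (row κ i (e k)).coeff (e k)) =
      Matrix.of fun (i k : Fin (d + 1)) => (if (k : ℕ) = 0 then (2 : L) else 1) *
        (Matrix.of fun (i k : Fin (d + 1)) => (κ i)⁻¹ ^ (e k)) i k := by
    funext i k
    simp only [Matrix.of_apply, row]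
    rcases Nat.eq_zero_or_pos (k : ℕ) with hk | hk
    · rw [hk, he0]
      simp
      norm_num
    · have hek : 0 < e k := by
        have := he hk
        omega
      rw [if_neg hk.ne', Polynomial.coeff_add, Polynomial.coeff_C_mul, Polynomial.coeff_X_pow_self,
        Polynomial.coeff_C, if_neg hek.ne']
      ring
  have hV : (Matrix.of fun (i k : Fin (d + 1)) => (κ i)⁻¹ ^ (e k)).det ≠ 0 := by
    intro h0
    obtain ⟨v, hv0, hv⟩ := (Matrix.exists_vecMul_eq_zero_iff).2 h0
    apply hv0
    have hc := hLC (fun n => if h : n < d + 1 then v ⟨n, h⟩ else 0) (by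
      intro k hk
      rw [Finset.sum_range]
      have h3 := congrFun hv ⟨k, by omega⟩
      simp only [Matrix.vecMul, dotProduct, Matrix.of_apply, Pi.zero_apply] at h3
      refine Eq.trans (Finset.sum_congr rfl fun i _ => ?_) h3
      rw [dif_pos i.2])
    funext i
    have h4 : (if h : (i : ℕ) < d + 1 then v ⟨i, h⟩ else 0) = 0 := hc i (by omega)
    rw [dif_pos i.2] at h4
    exact h4
  have hfin : (Matrix.of fun (i k : Fin (d + 1)) => row κ i (e k)).det.coeff
      (∑ k ∈ range (d + 1), e k) ≠ 0 := by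
    rw [hdet, hM, Matrix.det_mul_row]
    refine mul_ne_zero (Finset.prod_ne_zero_iff.2 fun i _ => ?_) hV
    split_ifs
    · exact h2
    · exact one_ne_zero
  rcases neg_one_pow_eq_or L[X] (d + 1) with h | h
  · rw [h, one_mul]
    exact hfin
  · rw [h, neg_one_mul, Polynomial.coeff_neg]
    exact neg_ne_zero.2 hfin

end Pool.Agent.Run7.h896.FW
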