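import Pool.Agent.Run7.h188.FW.Stm

/-!
Project FW (helper188), piece C4.
-/

set_option autoImplicit false

namespace Pool.Agent.Run7.h896.FW

open Finset Polynomial Pool.Agent.Run7.h188.FW

/-- C4. -/
theorem t_C4 : S_C4 := by
  intro L _ _ m S P D F W h hP hdeg hF hD hW hS hWl
  have hP0 : P ≠ 0 := hP.ne_zero
  have hWD : ∀ k l, W l * D k = W k * D l := by
    intro k l
    have h1 := hW k l
    rw [hF, hF] at h1
    have h2 : P * (W l * D k) = P * (W k * D l) := by linear_combination h1
    exact mul_left_cancel₀ hP0 h2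
  -- Bezout
  have hI : Ideal.span (Set.range D) = ⊤ := by
    by_contra hne
    obtain ⟨M, hM, hle⟩ := Ideal.exists_le_maximal _ hne
    obtain ⟨g, hg⟩ := (IsPrincipalIdealRing.principal M).principal
    have hg' : M = Ideal.span {g} := hg
    have hgu : ¬ IsUnit g := by
      intro hu
      exact hM.ne_top (by rw [hg', Ideal.span_singleton_eq_top]; exact hu)
    have hg0 : g ≠ 0 := by
      intro h0
      obtain ⟨k, hk⟩ := hD 0
      have : D k ∈ M := hle (Ideal.subset_span ⟨k, rfl⟩)
      rw [hg', Ideal.mem_span_singleton, h0, zero_dvd_iff] at this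
      rw [this] at hk
      simp at hk
    have hdg : g.degree ≠ 0 := fun h0 => hgu (Polynomial.isUnit_iff_degree_eq_zero.2 h0)
    obtain ⟨z, hz⟩ := IsAlgClosed.exists_root g hdg
    obtain ⟨k, hk⟩ := hD z
    have : D k ∈ M := hle (Ideal.subset_span ⟨k, rfl⟩)
    rw [hg', Ideal.mem_span_singleton] at this
    obtain ⟨q, hq⟩ := this
    apply hk
    rw [hq, Polynomial.eval_mul, hz.eq_zero, zero_mul]
  have h1 : (1 : L[X]) ∈ Ideal.span (Set.range D) := by rw [hI]; exact Submodule.mem_top
  obtain ⟨u, hu⟩ := (Ideal.mem_span_range_iff_exists_fun).1 h1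
  have hWlast : W (Fin.last m) = D (Fin.last m) * ∑ k, u k * W k := by
    calc W (Fin.last m) = (∑ k, u k * D k) * W (Fin.last m) := by rw [hu, one_mul]
      _ = D (Fin.last m) * ∑ k, u k * W k := by
        rw [Finset.sum_mul, Finset.mul_sum]
        refine Finset.sum_congr rfl fun k _ => ?_
        have := hWD k (Fin.last m)
        linear_combination u k * this
  have hDl0 : D (Fin.last m) ≠ 0 := by
    intro h0
    apply hS
    rw [hF, h0, mul_zero, Polynomial.coeff_zero]
  have hSdeg : S ≤ h + (D (Fin.last m)).natDegree := by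
    have h2 : S ≤ (F (Fin.last m)).natDegree := Polynomial.le_natDegree_of_ne_zero hS
    rw [hF, Polynomial.natDegree_mul hP0 hDl0, hdeg] at h2
    exact h2
  have hW0 : W (Fin.last m) = 0 := by
    by_contra hne
    have h3 : (D (Fin.last m)).natDegree ≤ (W (Fin.last m)).natDegree :=
      Polynomial.natDegree_le_of_dvd ⟨_, hWlast⟩ hne
    have h4 := hWl (W (Fin.last m)).natDegree (by omega)
    rw [Polynomial.coeff_natDegree, Polynomial.leadingCoeff_eq_zero] at h4
    exact hne h4
  intro k
  have h5 := hWD k (Fin.last m)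
  rw [hW0, zero_mul] at h5
  exact (mul_eq_zero.1 h5.symm).resolve_right hDl0

end Pool.Agent.Run7.h896.FW
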